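import Pool.Agent.Run7.h158.Lef.Geo

/-!
# Products of divisors on derived equivalent hyper-Kähler varieties
-/

open CategoryTheory AlgebraicGeometry

namespace Run7.h158

open Pool.Agent.H914 Pool.Agent.H914.VarClass Pool.Agent.H914.VarClass.Obj Pool.Agent.W492.BB
  Pool.Agent.W550.Corr Pool.Agent.TH133 Pool.Agent.TH829.Prime Pool.Agent.TH829.Kim
  Pool.Agent.Q8.HK Pool.Agent.N174.OV Pool.Agent.Y107 Pool.Agent.N174.KN

set_option linter.unusedSectionVars false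

variable {𝒱 : VarClass ℂ} {C : TheoryData.{0, 0, 0} 𝒱 ℚ} [hC : IsChowProj C]
  {H : WeilTheoryData.{0, 0, 0} C ℂ} [hH : IsWeilProj H] {X Y : 𝒱.Obj}
  {n : ℕ} {V U : Type} [AddCommGroup V] [Module ℂ V] [AddCommGroup U] [Module ℂ U]
  {hX : HyperKahler H n X V} {hY : HyperKahler H n Y U}

include hC hH

lemma ns_of_eta (hX : HyperKahler H n X V) {v : V} (hr : IsRat hX.b (hX.i v))
    (h1 : hX.eta (hX.i v) = 0) : hX.toCoh.NS v := by
  have hsk : ∀ x y, hX.q (((hX.q hX.s').smulRight hX.s - (hX.q hX.s).smulRight hX.s') x) y =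
      - hX.q x (((hX.q hX.s').smulRight hX.s - (hX.q hX.s).smulRight hX.s') y) := by
    intro x y
    simp only [LinearMap.sub_apply, LinearMap.smulRight_apply, map_sub, map_smul,
      LinearMap.smul_apply, smul_eq_mul]
    rw [hX.q_symm x hX.s, hX.q_symm x hX.s']
    ring
  have h2 : hX.i ((hX.q hX.s' v) • hX.s - (hX.q hX.s v) • hX.s') = 0 := by
    rw [Coh.eta, LinearMap.smul_apply, hX.toCoh.rho_S_i hsk] at h1
    have h3 : (2 / hX.tau : ℂ) ≠ 0 := div_ne_zero two_ne_zero hX.s_s'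
    exact (smul_eq_zero.1 h1).resolve_left h3
  have h3 : (hX.q hX.s' v) • hX.s - (hX.q hX.s v) • hX.s' = 0 := by
    apply hX.i_inj
    rw [h2, map_zero]
  refine ⟨hr, ?_, ?_⟩
  · have h4 := congrArg (fun z => hX.q hX.s z) h3
    simp only [map_sub, map_smul, hX.s_iso, smul_eq_mul, mul_zero, zero_sub, map_zero,
      neg_eq_zero] at h4
    rw [hX.q_symm]
    exact (mul_eq_zero.1 h4).resolve_right hX.s_s'
  · have h4 := congrArg (fun z => hX.q hX.s' z) h3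
    simp only [map_sub, map_smul, hX.s'_iso, smul_eq_mul, mul_zero, sub_zero, map_zero] at h4
    rw [hX.q_symm]
    rw [hX.q_symm hX.s' hX.s] at h4
    exact (mul_eq_zero.1 h4).resolve_right hX.s_s'

/-- The classes of divisors correspond to each other. -/
lemma exists_div (hX : HyperKahler H n X V) (hY : HyperKahler H n Y U) (hd : DivHyp hX)
    {G : H.A X ≃ₐ[ℂ] H.A Y}
    (hdeg : ∀ (k : ℕ) (a : H.A X), H.Deg k a ↔ H.Deg k (G a))
    (hrat : ∀ a, IsRat hX.b a ↔ IsRat hY.b (G a)) (heta : ∀ a, G (hX.eta a) = hY.eta (G a))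
    {D : C.A X} (hD : D ∈ C.gr X 1) : ∃ D' ∈ C.gr Y 1, H.cl D' = G (H.cl D) := by
  have h2 : H.Deg ((2 : ℕ) : ℤ) (H.cl D) := by
    have h := H.cl_mem hD
    rwa [show (2 * 1 : ℤ) = ((2 : ℕ) : ℤ) by norm_num] at h
  obtain ⟨u, hu⟩ := (hY.i_range _).1 ((hY.grade_iff 2 _).2 ((hdeg 2 _).1 h2))
  have hns : hY.toCoh.NS u := by
    refine ns_of_eta hY ?_ ?_
    · rw [hu]
      exact (hrat _).1 (hX.cl_rat D)
    · rw [hu, ← heta, hd.hodge D hD, map_zero]
  obtain ⟨D', hD', hcl⟩ := hY.lefschetz u hns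
  exact ⟨D', hD', hcl.trans hu⟩

/-- The orientation is proportional to the degree. -/
lemma exists_tr_deg (hX : HyperKahler H n X V) : ∃ κ : ℂ, κ ≠ 0 ∧ ∀ x : C.A X,
    H.tr X (H.cl x) = κ * (degL H X x : ℂ) := by
  obtain ⟨a, ha, h1, h2⟩ := hC.exists_deg_one X
  have hdeg : degL H X a = 1 := by
    apply degL_eq
    intro Z
    rw [one_smul]
    exact ⟨h2 Z, h1 Z⟩
  have key : ∀ x : C.A X, H.tr X (H.cl x) = H.tr X (H.cl a) * (degL H X x : ℂ) := by
    intro x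
    have h3 := degL_tr (H := H) a x
    rw [hdeg, Rat.cast_one, one_mul] at h3
    rw [h3, mul_comm]
  refine ⟨H.tr X (H.cl a), fun h0 => ?_, key⟩
  obtain ⟨L, hL⟩ := exists_ample hX
  have h4 : H.tr X (H.cl ((L : C.A X) ^ (2 * n))) = (hX.c : ℂ) * hX.q hX.l hX.l ^ n := by
    rw [ch_pow_cl, ← i_vec hX, ← hX.int_eq, hX.fujiki, hL]
  rw [key, h0, zero_mul] at h4
  have hc : (hX.c : ℂ) ≠ 0 := by exact_mod_cast hX.c_ne
  exact mul_ne_zero hc (pow_ne_zero _ hX.l_l) h4.symm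

/-- The corresponding products of divisors. -/
lemma lefSub_fwd (hX : HyperKahler H n X V) (hY : HyperKahler H n Y U) (hd : DivHyp hX)
    {G : H.A X ≃ₐ[ℂ] H.A Y}
    (hdeg : ∀ (k : ℕ) (a : H.A X), H.Deg k a ↔ H.Deg k (G a))
    (hrat : ∀ a, IsRat hX.b a ↔ IsRat hY.b (G a)) (heta : ∀ a, G (hX.eta a) = hY.eta (G a))
    {h : C.A X} {h' : C.A Y} (hcl : H.cl h' = G (H.cl h)) {x : C.A X} (hx : x ∈ lefSub C n h) :
    ∃ y ∈ lefSub C n h', H.cl y = G (H.cl x) := by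
  induction hx using Submodule.span_induction with
  | mem x hx =>
    obtain ⟨D, e, m, hD, hem, rfl⟩ := hx
    obtain ⟨D', hD', hcl'⟩ := exists_div hX hY hd hdeg hrat heta hD
    refine ⟨h' ^ (2 * e) * D' ^ m, Submodule.subset_span ⟨D', e, m, hD', hem, rfl⟩, ?_⟩
    rw [map_mul, map_mul, map_mul, map_pow, map_pow, map_pow, map_pow, map_pow, map_pow, hcl,
      hcl']
  | zero => exact ⟨0, Submodule.zero_mem _, by rw [map_zero, map_zero, map_zero]⟩
  | add a b _ _ ha hb =>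
    obtain ⟨a', ha', h1⟩ := ha
    obtain ⟨b', hb', h2⟩ := hb
    exact ⟨a' + b', Submodule.add_mem _ ha' hb', by rw [map_add, map_add, map_add, h1, h2]⟩
  | smul q a _ ha =>
    obtain ⟨a', ha', h1⟩ := ha
    exact ⟨q • a', Submodule.smul_mem _ _ ha', by rw [cl_smul, cl_smul, map_smul, h1]⟩

/-- **Products of divisors on derived equivalent hyper-Kähler varieties.** -/
theorem lefSub_matches (hX : HyperKahler H n X V) (hY : HyperKahler H n Y U) (hdX : DivHyp hX)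
    (hdY : DivHyp hY) {G : H.A X ≃ₐ[ℂ] H.A Y}
    (hdeg : ∀ (k : ℕ) (a : H.A X), H.Deg k a ↔ H.Deg k (G a))
    (hrat : ∀ a, IsRat hX.b a ↔ IsRat hY.b (G a)) (heta : ∀ a, G (hX.eta a) = hY.eta (G a))
    {h : C.A X} {h' : C.A Y} (hcl : H.cl h' = G (H.cl h)) :
    Matches H G (lefSub C n h) (lefSub C n h') where
  fwd x hx := lefSub_fwd hX hY hdX hdeg hrat heta hcl hx
  bwd y hy := by
    have hdeg' : ∀ (k : ℕ) (a : H.A Y), H.Deg k a ↔ H.Deg k (G.symm a) := fun k a => by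
      rw [hdeg k (G.symm a), AlgEquiv.apply_symm_apply]
    have hrat' : ∀ a, IsRat hY.b a ↔ IsRat hX.b (G.symm a) := fun a => by
      rw [hrat (G.symm a), AlgEquiv.apply_symm_apply]
    have heta' : ∀ a, G.symm (hY.eta a) = hX.eta (G.symm a) := fun a => by
      apply G.injective
      rw [AlgEquiv.apply_symm_apply, heta, AlgEquiv.apply_symm_apply]
    have hcl' : H.cl h = G.symm (H.cl h') := by rw [hcl, AlgEquiv.symm_apply_apply]
    obtain ⟨x, hx, h1⟩ := lefSub_fwd hY hX hdY hdeg' hrat' heta' hcl' hy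
    exact ⟨x, hx, by rw [h1, AlgEquiv.apply_symm_apply]⟩

/-- The degree of `h'^(2n)` is not zero. -/
lemma degL_transfer (hX : HyperKahler H n X V) (hY : HyperKahler H n Y U)
    {G : H.A X ≃ₐ[ℂ] H.A Y} {c : ℚ} (hc : c ≠ 0)
    (htr : ∀ x, H.tr Y (G x) = ((c ^ 2 : ℚ) : ℂ) * H.tr X x)
    {h : C.A X} {h' : C.A Y} (hcl : H.cl h' = G (H.cl h)) {m : ℕ}
    (hne : degL H X (h ^ m) ≠ 0) : degL H Y (h' ^ m) ≠ 0 := by
  obtain ⟨κ, hκ, h1⟩ := exists_tr_deg hX
  obtain ⟨κ', hκ', h2⟩ := exists_tr_deg hY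
  intro h0
  have h3 := h2 (h' ^ m)
  rw [h0, Rat.cast_zero, mul_zero, ch_pow_cl, hcl, ← map_pow, htr, ← ch_pow_cl, h1] at h3
  have hc2 : ((c ^ 2 : ℚ) : ℂ) ≠ 0 := by exact_mod_cast pow_ne_zero 2 hc
  have hd : (degL H X (h ^ m) : ℂ) ≠ 0 := by exact_mod_cast hne
  exact mul_ne_zero hc2 (mul_ne_zero hκ hd) h3

end Run7.h158
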