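import Pool.Agent.Run7.h158.Lef.Pd

/-!
# Powers of degree one elements of an algebra with a Fujiki relation
-/

namespace Run7.h158.Lef

open Finset MvPolynomial

/-- The coefficients of a polynomial with values in a subspace lie in this subspace. -/
theorem mem_of_poly {M : Type} [AddCommGroup M] [Module ℚ M] (P : Submodule ℚ M) {N : ℕ}
    (v : ℕ → M) (h : ∀ t : ℚ, ∑ k ∈ range N, t ^ k • v k ∈ P) {k : ℕ} (hk : k < N) : v k ∈ P := by
  by_contra hv
  obtain ⟨f, hf, hP⟩ := Submodule.exists_le_ker_of_notMem hv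
  apply hf
  let Q : Polynomial ℚ := ∑ k ∈ range N, Polynomial.C (f (v k)) * Polynomial.X ^ k
  have hQ : Q = 0 := by
    apply Polynomial.funext
    intro t
    have h1 : f (∑ k ∈ range N, t ^ k • v k) = 0 := LinearMap.mem_ker.1 (hP (h t))
    rw [map_sum] at h1
    simp only [Q, Polynomial.eval_finsetSum, Polynomial.eval_mul, Polynomial.eval_C,
      Polynomial.eval_pow, Polynomial.eval_X, Polynomial.eval_zero]
    rw [← h1]
    refine sum_congr rfl fun k _ => ?_
    rw [map_smul, smul_eq_mul, mul_comm]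
  have h2 := congrArg (fun R => Polynomial.coeff R k) hQ
  simp only [Q, Polynomial.finsetSum_coeff, Polynomial.coeff_C_mul, Polynomial.coeff_X_pow,
    Polynomial.coeff_zero] at h2
  rw [sum_eq_single k] at h2
  · simpa using h2
  · intro j _ hj
    rw [if_neg (Ne.symm hj), mul_zero]
  · intro hk'
    exact absurd (mem_range.2 hk) hk'

section lin

variable {κ : Type} [Fintype κ]

/-- The products of a sum of `m`-th powers of linear forms with a linear form are sums of
`(m + 1)`-st powers. -/
lemma span_mul_lin {m : ℕ} {F : MvPolynomial κ ℚ}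
    (hF : F ∈ Submodule.span ℚ (Set.range fun x : κ → ℚ => lin x ^ m)) (y : κ → ℚ) :
    F * lin y ∈ Submodule.span ℚ (Set.range fun x : κ → ℚ => lin x ^ (m + 1)) := by
  induction hF using Submodule.span_induction with
  | mem F hF =>
    obtain ⟨x, rfl⟩ := hF
    have h1 : ∀ t : ℚ, ∑ k ∈ range (m + 2), t ^ k • (((m + 1).choose k : ℚ) •
        (lin x ^ k * lin y ^ (m + 1 - k))) ∈
          Submodule.span ℚ (Set.range fun x : κ → ℚ => lin x ^ (m + 1)) := by
      intro t
      have h2 : ∑ k ∈ range (m + 2), t ^ k • (((m + 1).choose k : ℚ) •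
        (lin x ^ k * lin y ^ (m + 1 - k))) = lin (t • x + y) ^ (m + 1) := by
        rw [lin_add, lin_smul, add_pow]
        refine sum_congr rfl fun k _ => ?_
        rw [smul_pow, smul_mul_assoc, smul_mul_assoc, mul_comm _ (Nat.cast _),
          ← nsmul_eq_mul, Nat.cast_smul_eq_nsmul]
      rw [h2]
      exact Submodule.subset_span ⟨_, rfl⟩
    have h3 := mem_of_poly _ (fun k => ((m + 1).choose k : ℚ) •
        (lin x ^ k * lin y ^ (m + 1 - k))) h1 (show m < m + 2 by omega)
    rw [show m + 1 - m = 1 by omega, pow_one] at h3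
    have h4 : ((m + 1).choose m : ℚ) ≠ 0 := by
      exact_mod_cast (Nat.choose_pos (by omega)).ne'
    have h5 := Submodule.smul_mem _ ((m + 1).choose m : ℚ)⁻¹ h3
    rwa [smul_smul, inv_mul_cancel₀ h4, one_smul] at h5
  | zero =>
    rw [zero_mul]
    exact Submodule.zero_mem _
  | add a b _ _ ha hb =>
    rw [add_mul]
    exact Submodule.add_mem _ ha hb
  | smul q a _ ha =>
    rw [smul_mul_assoc]
    exact Submodule.smul_mem _ _ ha

lemma X_eq_lin [DecidableEq κ] (a : κ) : (X a : MvPolynomial κ ℚ) = lin (Pi.single a 1) := by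
  rw [lin, sum_eq_single a]
  · rw [Pi.single_eq_same, one_smul]
  · intro b _ hb
    rw [Pi.single_eq_of_ne hb, zero_smul]
  · intro h
    exact absurd (mem_univ a) h

lemma pow_mul_pow_mem (a : κ) (x : κ → ℚ) (p m : ℕ) {N : ℕ} (hN : p + m = N) :
    (X a : MvPolynomial κ ℚ) ^ p * lin x ^ m ∈
      Submodule.span ℚ (Set.range fun x : κ → ℚ => lin x ^ N) := by
  classical
  subst hN
  induction p with
  | zero =>
    rw [pow_zero, one_mul, zero_add]
    exact Submodule.subset_span ⟨x, rfl⟩
  | succ p ih =>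
    have h1 := span_mul_lin ih (Pi.single a 1)
    rw [← X_eq_lin] at h1
    have h2 : (X a : MvPolynomial κ ℚ) ^ (p + 1) * lin x ^ m = X a ^ p * lin x ^ m * X a := by
      rw [pow_succ]; ring
    rw [h2, show p + 1 + m = p + m + 1 by omega]
    exact h1

end lin

/-- Orthogonal families containing a given anisotropic vector. -/
theorem orth_family {M : Type} [AddCommGroup M] [Module ℚ M] [Module.Finite ℚ M]
    (B : M →ₗ[ℚ] M →ₗ[ℚ] ℚ) (hs : ∀ x y, B x y = B y x) (hn : ∀ x, (∀ y, B x y = 0) → x = 0)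
    (h : M) (hh : B h h ≠ 0) : ∃ (r : ℕ) (w : Option (Fin r) → M) (lam : Option (Fin r) → ℚ),
      w none = h ∧ (∀ a, lam a ≠ 0) ∧ (∀ a b, B (w a) (w b) = if a = b then lam a else 0) ∧
      ∀ x, ∃ c : Option (Fin r) → ℚ, x = ∑ a, c a • w a := by
  classical
  let N : Submodule ℚ M := LinearMap.ker (B h)
  let B' : LinearMap.BilinForm ℚ N := B.domRestrict₁₂ N N
  have hB' : ∀ x y : N, B' x y = B x y := fun _ _ => rfl
  have : Invertible (2 : ℚ) := invertibleOfNonzero two_ne_zero
  obtain ⟨v, hv⟩ := LinearMap.BilinForm.exists_orthogonal_basis (B := B')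
    ⟨fun x y => hs (x : M) (y : M)⟩
  have hv' : ∀ a b, a ≠ b → B (v a) (v b) = 0 := fun a b hab => hv hab
  have hN : ∀ x : N, B h x = 0 := fun x => LinearMap.mem_ker.1 x.2
  have hdec : ∀ x : M, ∃ y : N, x = (B h x / B h h) • h + y := by
    intro x
    refine ⟨⟨x - (B h x / B h h) • h, ?_⟩, ?_⟩
    · rw [LinearMap.mem_ker, map_sub, map_smul, smul_eq_mul, div_mul_cancel₀ _ hh, sub_self]
    · simp
  have hspan : ∀ y : N, (y : M) = ∑ a, v.repr y a • (v a : M) := by
    intro y
    have h1 := congrArg (fun z : N => (z : M)) (v.sum_repr y)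
    simp only [Submodule.coe_sum, Submodule.coe_smul] at h1
    exact h1.symm
  have hself : ∀ a, B (v a) (v a) ≠ 0 := by
    intro a h0
    have h1 : ((v a : N) : M) = 0 := by
      apply hn
      intro x
      obtain ⟨y, hy⟩ := hdec x
      rw [hy, hspan y, map_add, map_smul, map_sum, hs (v a) h, hN, smul_zero, zero_add]
      refine sum_eq_zero fun b _ => ?_
      rw [map_smul]
      by_cases hab : a = b
      · subst hab
        rw [h0, smul_zero]
      · rw [hv' a b hab, smul_zero]
    exact v.ne_zero a (Subtype.ext h1)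
  refine ⟨Module.finrank ℚ N, fun a => a.elim h (fun a => (v a : M)),
    fun a => a.elim (B h h) (fun a => B (v a) (v a)), rfl, ?_, ?_, ?_⟩
  · rintro (_ | a)
    · exact hh
    · exact hself a
  · rintro (_ | a) (_ | b)
    · rfl
    · simp only [Option.elim, reduceCtorEq, if_false]
      exact hN _
    · simp only [Option.elim, reduceCtorEq, if_false]
      rw [hs]
      exact hN _
    · simp only [Option.elim, Option.some.injEq]
      split_ifs with hab
      · subst hab
        rfl
      · exact hv' a b hab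
  · intro x
    obtain ⟨y, hy⟩ := hdec x
    refine ⟨fun a => a.elim (B h x / B h h) (fun a => v.repr y a), ?_⟩
    rw [Fintype.sum_option]
    simp only [Option.elim]
    rw [← hspan]
    exact hy

/-- **The abstract theorem.** Let `deg (ι(x)^(2n)) = c q(x, x)^n` for a nondegenerate form `q` on
a space `M` of elements of a commutative algebra `K`. A linear combination of the elements
`ι(h)^(2e) ι(x)^m`, `e + m ≤ n`, of the same degree `2e + m = k`, is zero if its products with
the elements of `K` have degree zero. -/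
theorem absC {K : Type} [CommRing K] [Algebra ℚ K] {M : Type} [AddCommGroup M] [Module ℚ M]
    [Module.Finite ℚ M] (ι : M →ₗ[ℚ] K) (deg : K →ₗ[ℚ] ℚ) {n : ℕ} {c : ℚ} (hc : c ≠ 0)
    (B : M →ₗ[ℚ] M →ₗ[ℚ] ℚ) (hs : ∀ x y, B x y = B y x) (hn : ∀ x, (∀ y, B x y = 0) → x = 0)
    (hdeg : ∀ x, deg (ι x ^ (2 * n)) = c * B x x ^ n) (h : M) (hh : B h h ≠ 0) {k : ℕ}
    {J : Type} [Fintype J] (q : J → ℚ) (D : J → M) (e p : J → ℕ) (hep : ∀ j, e j + p j ≤ n)
    (hk : ∀ j, 2 * e j + p j = k) (h0 : ∀ z, deg ((∑ j, q j • (ι h ^ (2 * e j) * ι (D j) ^ p j)) *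
      z) = 0) : ∑ j, q j • (ι h ^ (2 * e j) * ι (D j) ^ p j) = 0 := by
  classical
  obtain ⟨r, w, lam, hw, hlam, hBw, hspan⟩ := orth_family B hs hn h hh
  choose co hco using hspan
  let ev : MvPolynomial (Option (Fin r)) ℚ →ₐ[ℚ] K := aeval fun a => ι (w a)
  have hev : ∀ x : Option (Fin r) → ℚ, ev (lin x) = ι (∑ a, x a • w a) := by
    intro x
    rw [lin, map_sum, map_sum]
    refine sum_congr rfl fun a _ => ?_
    rw [map_smul, map_smul, aeval_X]
  have hev0 : ev (X none) = ι h := by rw [aeval_X, hw]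
  have hB : ∀ x : Option (Fin r) → ℚ, B (∑ a, x a • w a) (∑ a, x a • w a) =
      ∑ a, lam a * x a ^ 2 := by
    intro x
    rw [map_sum]
    refine sum_congr rfl fun a _ => ?_
    rw [map_smul, map_sum, LinearMap.sum_apply, sum_eq_single a]
    · rw [map_smul, LinearMap.smul_apply, hBw, if_pos rfl, smul_eq_mul, smul_eq_mul]
      ring
    · intro b _ hb
      rw [map_smul, LinearMap.smul_apply, hBw, if_neg hb, smul_zero]
    · intro ha
      exact absurd (mem_univ a) ha
  let L : MvPolynomial (Option (Fin r)) ℚ →ₗ[ℚ] ℚ := deg ∘ₗ ev.toLinearMap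
  have hLapp : ∀ F, L F = deg (ev F) := fun _ => rfl
  have hL : ∀ x : Option (Fin r) → ℚ, L (lin x ^ (2 * n)) =
      c * (∑ a, lam a * x a ^ 2) ^ n := by
    intro x
    rw [hLapp, map_pow, hev, hdeg, hB]
  set f : MvPolynomial (Option (Fin r)) ℚ :=
    ∑ j, q j • (X none ^ (2 * e j) * lin (co (D j)) ^ p j) with hf
  have hevf : ev f = ∑ j, q j • (ι h ^ (2 * e j) * ι (D j) ^ p j) := by
    rw [hf, map_sum]
    refine sum_congr rfl fun j _ => ?_
    rw [map_smul, map_mul, map_pow, map_pow, hev0, hev, ← hco]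
  rw [← hevf] at h0 ⊢
  have hX : (X none : MvPolynomial (Option (Fin r)) ℚ) ≠ 0 := X_ne_zero _
  have hrefl0 : refl lam (X none) = sg (lam none) • X none := by rw [refl, aeval_X]
  suffices hf0 : f = 0 by rw [hf0, map_zero]
  rcases le_total k n with hkn | hkn
  · have hF : X none ^ (n - k) * f ∈ Submodule.span ℚ
        (Set.range fun x : Option (Fin r) → ℚ => lin x ^ n) := by
      rw [hf, mul_sum]
      refine Submodule.sum_mem _ fun j _ => ?_
      rw [mul_smul_comm, ← mul_assoc, ← pow_add]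
      refine Submodule.smul_mem _ _ (pow_mul_pow_mem _ _ _ _ ?_)
      have := hk j
      omega
    have h1 : L (X none ^ (n - k) * f * refl lam (X none ^ (n - k) * f)) = 0 := by
      rw [hLapp]
      have h2 : ev (X none ^ (n - k) * f * refl lam (X none ^ (n - k) * f)) =
          ev f * (ev (X none ^ (n - k)) * ev (refl lam (X none ^ (n - k) * f))) := by
        rw [map_mul, map_mul]; ring
      rw [h2]
      exact h0 _
    have h3 := definite hc hlam hL hF h1
    exact (mul_eq_zero.1 h3).resolve_left (pow_ne_zero _ hX)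
  · -- `f = X^(k - n) F` and `F = X^(k - n) y`
    set y : MvPolynomial (Option (Fin r)) ℚ :=
      ∑ j, q j • (X none ^ (2 * e j - 2 * (k - n)) * lin (co (D j)) ^ p j) with hy
    have hle : ∀ j, k - n ≤ e j := fun j => by
      have := hk j
      have := hep j
      omega
    have hfy : f = X none ^ (k - n) * (X none ^ (k - n) * y) := by
      rw [hf, hy, mul_sum, mul_sum]
      refine sum_congr rfl fun j _ => ?_
      rw [mul_smul_comm, mul_smul_comm, ← mul_assoc, ← mul_assoc, ← pow_add, ← pow_add]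
      have h2 : k - n + (k - n) + (2 * e j - 2 * (k - n)) = 2 * e j := by
        have := hle j
        omega
      rw [h2]
    have hF : X none ^ (k - n) * y ∈ Submodule.span ℚ
        (Set.range fun x : Option (Fin r) → ℚ => lin x ^ n) := by
      rw [hy, mul_sum]
      refine Submodule.sum_mem _ fun j _ => ?_
      rw [mul_smul_comm, ← mul_assoc, ← pow_add]
      refine Submodule.smul_mem _ _ (pow_mul_pow_mem _ _ _ _ ?_)
      have h1 := hk j
      have h2 := hle j
      have h3 := hep j
      omega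
    have h1 : L (X none ^ (k - n) * y * refl lam (X none ^ (k - n) * y)) = 0 := by
      rw [hLapp]
      have h2 : X none ^ (k - n) * y * refl lam (X none ^ (k - n) * y) =
          f * (sg (lam none) ^ (k - n) • refl lam y) := by
        rw [map_mul, map_pow, hrefl0, smul_pow, hfy, smul_mul_assoc, mul_smul_comm, mul_smul_comm]
        congr 1
        ring
      rw [h2, map_mul]
      exact h0 _
    have h3 := definite hc hlam hL hF h1
    rw [hfy, h3, mul_zero]

/-- The abstract theorem, for a ring whose multiplication is commutative. -/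
theorem abs {K : Type} [hK : Ring K] (hcomm : ∀ a b : K, a * b = b * a) [Algebra ℚ K] {M : Type}
    [AddCommGroup M] [Module ℚ M]
    [Module.Finite ℚ M] (ι : M →ₗ[ℚ] K) (deg : K →ₗ[ℚ] ℚ) {n : ℕ} {c : ℚ} (hc : c ≠ 0)
    (B : M →ₗ[ℚ] M →ₗ[ℚ] ℚ) (hs : ∀ x y, B x y = B y x) (hn : ∀ x, (∀ y, B x y = 0) → x = 0)
    (hdeg : ∀ x, deg (ι x ^ (2 * n)) = c * B x x ^ n) (h : M) (hh : B h h ≠ 0) {k : ℕ}
    {J : Type} [Fintype J] (q : J → ℚ) (D : J → M) (e p : J → ℕ) (hep : ∀ j, e j + p j ≤ n)
    (hk : ∀ j, 2 * e j + p j = k) (h0 : ∀ z, deg ((∑ j, q j • (ι h ^ (2 * e j) * ι (D j) ^ p j)) *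
      z) = 0) : ∑ j, q j • (ι h ^ (2 * e j) * ι (D j) ^ p j) = 0 := by
  let _ : CommRing K := { hK with mul_comm := hcomm }
  exact absC ι deg hc B hs hn hdeg h hh q D e p hep hk h0

end Run7.h158.Lef
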