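import Pool.Agent.Run7.h158.Lef.Abs
import Pool.Agent.Run7.h158.Restr

/-!
# Products of divisors on hyper-Kähler varieties
-/

open CategoryTheory AlgebraicGeometry

namespace Run7.h158

open Pool.Agent.H914 Pool.Agent.H914.VarClass Pool.Agent.H914.VarClass.Obj Pool.Agent.W492.BB
  Pool.Agent.W550.Corr Pool.Agent.TH133 Pool.Agent.TH829.Prime Pool.Agent.TH829.Kim
  Pool.Agent.Q8.HK Pool.Agent.N174.OV Pool.Agent.Y107 Pool.Agent.N174.KN

set_option linter.unusedSectionVars false

variable {𝒱 : VarClass ℂ} {C : TheoryData.{0, 0, 0} 𝒱 ℚ} [hC : IsChowProj C]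
  {H : WeilTheoryData.{0, 0, 0} C ℂ} [hH : IsWeilProj H] {X Y : 𝒱.Obj}

include hC hH

/-- The components determine the class. -/
lemma eq_zero_of_cmp {x : C.A X} (h : ∀ k, cmp (C.isInternal X) k x = 0) : x = 0 := by
  have key : ∃ T : Finset ℤ, ∀ T' : Finset ℤ, T ⊆ T' → x = ∑ k ∈ T', cmp (C.isInternal X) k x := by
    refine hom_ind X (p := fun x => ∃ T : Finset ℤ, ∀ T' : Finset ℤ, T ⊆ T' →
      x = ∑ k ∈ T', cmp (C.isInternal X) k x) ?_ ?_ x
    · intro i a ha
      refine ⟨{i}, fun T' hT => ?_⟩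
      rw [Finset.sum_eq_single_of_mem i (hT (Finset.mem_singleton_self i)), cmp_of_mem _ ha]
      intro j _ hj
      exact cmp_of_ne _ ha hj.symm
    · rintro a b ⟨T1, h1⟩ ⟨T2, h2⟩
      refine ⟨T1 ∪ T2, fun T' hT => ?_⟩
      have e1 := h1 T' (Finset.subset_union_left.trans hT)
      have e2 := h2 T' (Finset.subset_union_right.trans hT)
      conv_lhs => rw [e1, e2]
      rw [← Finset.sum_add_distrib]
      exact Finset.sum_congr rfl fun k _ => (map_add _ _ _).symm
  obtain ⟨T, hT⟩ := key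
  rw [hT T le_rfl]
  exact Finset.sum_eq_zero fun k _ => h k

/-- The components of numerically trivial classes are numerically trivial. -/
lemma numTrivial_cmp {x : C.A X} (h : NumTrivial C x) (k : ℤ) :
    NumTrivial C (cmp (C.isInternal X) k x) := by
  rw [numTrivial_iff (H := H)] at h ⊢
  intro z
  rw [← degL_cmp (cmp_mem _ k x) z, degL_comm]
  have h1 := degL_cmp (H := H) (cmp_mem (C.isInternal X) (X.dim - k) z) x
  rw [show (X.dim : ℤ) - (X.dim - k) = k by ring] at h1
  rw [h1, degL_comm]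
  exact h _

/-- The degrees of zero-cycles and the orientation. -/
lemma degL_tr (x y : C.A X) :
    (degL H X x : ℂ) * H.tr X (H.cl y) = (degL H X y : ℂ) * H.tr X (H.cl x) := by
  have hx := degL_spec (H := H) x
  have hy := degL_spec (H := H) y
  have e1 : H.tr (X.prod X) (H.cl (C.ext x y)) = (degL H X x : ℂ) * H.tr X (H.cl y) := by
    have h1 : C.push (snd X X) (C.ext x y) = degL H X x • y := by
      rw [TheoryData.ext, C.proj_right, (hx X).1, smul_mul_assoc, one_mul]
    rw [← hH.isOriented.tr_push (snd X X)]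
    change H.tr X (H.push (snd X X) (H.cl (C.ext x y))) = _
    rw [← H.cl_push, h1, cl_smul, map_smul, smul_eq_mul]
  have e2 : H.tr (X.prod X) (H.cl (C.ext x y)) = (degL H X y : ℂ) * H.tr X (H.cl x) := by
    have h1 : C.push (fst X X) (C.ext x y) = degL H X y • x := by
      rw [TheoryData.ext, C.proj_left, (hy X).2, mul_smul_comm, mul_one]
    rw [← hH.isOriented.tr_push (fst X X)]
    change H.tr X (H.push (fst X X) (H.cl (C.ext x y))) = _
    rw [← H.cl_push, h1, cl_smul, map_smul, smul_eq_mul]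
  rw [← e1, e2]

section HK

variable {n : ℕ} {V U : Type} [AddCommGroup V] [Module ℂ V] [AddCommGroup U] [Module ℂ U]

omit hC hH in
/-- The classes of divisors are of type `(1,1)`, and the homologically trivial divisors are
rationally equivalent to zero. -/
structure DivHyp (hX : HyperKahler H n X V) : Prop where
  hodge : ∀ D : C.A X, D ∈ C.gr X 1 → hX.eta (H.cl D) = 0
  pic : ∀ D : C.A X, D ∈ C.gr X 1 → H.cl D = 0 → D = 0

variable {hX : HyperKahler H n X V} {hY : HyperKahler H n Y U}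

lemma exists_vec (hX : HyperKahler H n X V) {D : C.A X} (hD : D ∈ C.gr X 1) :
    ∃ v : V, hX.i v = H.cl D := by
  refine (hX.i_range _).1 ((hX.grade_iff 2 _).2 ?_)
  have h := H.cl_mem hD
  rwa [show (2 * 1 : ℤ) = ((2 : ℕ) : ℤ) by norm_num] at h

lemma ns_of_div (hd : DivHyp hX) {D : C.A X} (hD : D ∈ C.gr X 1) {v : V} (hv : hX.i v = H.cl D) :
    hX.toCoh.NS v := by
  have h1 := hd.hodge D hD
  have hsk : ∀ x y, hX.q (((hX.q hX.s').smulRight hX.s - (hX.q hX.s).smulRight hX.s') x) y =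
      - hX.q x (((hX.q hX.s').smulRight hX.s - (hX.q hX.s).smulRight hX.s') y) := by
    intro x y
    simp only [LinearMap.sub_apply, LinearMap.smulRight_apply, map_sub, map_smul,
      LinearMap.smul_apply, smul_eq_mul]
    rw [hX.q_symm x hX.s, hX.q_symm x hX.s']
    ring
  have h2 : hX.i ((hX.q hX.s' v) • hX.s - (hX.q hX.s v) • hX.s') = 0 := by
    rw [← hv] at h1
    rw [Coh.eta, LinearMap.smul_apply, hX.toCoh.rho_S_i hsk] at h1
    have h3 : (2 / hX.tau : ℂ) ≠ 0 := div_ne_zero two_ne_zero hX.s_s'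
    exact (smul_eq_zero.1 h1).resolve_left h3
  have h3 : (hX.q hX.s' v) • hX.s - (hX.q hX.s v) • hX.s' = 0 := by
    apply hX.i_inj
    rw [h2, map_zero]
  refine ⟨by rw [hv]; exact hX.cl_rat D, ?_, ?_⟩
  · have h4 := congrArg (fun z => hX.q hX.s z) h3
    simp only [map_sub, map_smul, hX.s_iso, smul_eq_mul, mul_zero, zero_sub, map_zero,
      neg_eq_zero] at h4
    rw [hX.q_symm]
    exact (mul_eq_zero.1 h4).resolve_right hX.s_s'
  · have h4 := congrArg (fun z => hX.q hX.s' z) h3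
    simp only [map_sub, map_smul, hX.s'_iso, smul_eq_mul, mul_zero, sub_zero, map_zero] at h4
    rw [hX.q_symm]
    rw [hX.q_symm hX.s' hX.s] at h4
    exact (mul_eq_zero.1 h4).resolve_right hX.s_s'

/-- The vector in `H²` of a divisor. -/
noncomputable def vec (hX : HyperKahler H n X V) (D : C.gr X 1) : V := (exists_vec hX D.2).choose

lemma i_vec (hX : HyperKahler H n X V) (D : C.gr X 1) : hX.i (vec hX D) = H.cl (D : C.A X) :=
  (exists_vec hX D.2).choose_spec

lemma vec_add (hX : HyperKahler H n X V) (D E : C.gr X 1) :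
    vec hX (D + E) = vec hX D + vec hX E := by
  apply hX.i_inj
  rw [map_add, i_vec, i_vec, i_vec, Submodule.coe_add, map_add]

lemma vec_smul (hX : HyperKahler H n X V) (q : ℚ) (D : C.gr X 1) :
    vec hX (q • D) = (q : ℂ) • vec hX D := by
  apply hX.i_inj
  rw [map_smul, i_vec, i_vec, Submodule.coe_smul, cl_smul]

lemma exists_form (hX : HyperKahler H n X V) (D E : C.gr X 1) :
    ∃ r : ℚ, hX.q (vec hX D) (vec hX E) = (r : ℂ) :=
  hX.q_rat _ _ (by rw [i_vec]; exact hX.cl_rat _) (by rw [i_vec]; exact hX.cl_rat _)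

/-- The values of the form on the divisors. -/
noncomputable def fr (hX : HyperKahler H n X V) (D E : C.gr X 1) : ℚ :=
  (exists_form hX D E).choose

lemma fr_spec (hX : HyperKahler H n X V) (D E : C.gr X 1) :
    ((fr hX D E : ℚ) : ℂ) = hX.q (vec hX D) (vec hX E) := (exists_form hX D E).choose_spec.symm

/-- The form on the divisors. -/
noncomputable def form (hX : HyperKahler H n X V) : C.gr X 1 →ₗ[ℚ] C.gr X 1 →ₗ[ℚ] ℚ :=
  LinearMap.mk₂ ℚ (fun D E => fr hX D E)
    (fun D D' E => by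
      apply Rat.cast_injective (α := ℂ)
      rw [Rat.cast_add, fr_spec, fr_spec, fr_spec, vec_add, map_add, LinearMap.add_apply])
    (fun q D E => by
      apply Rat.cast_injective (α := ℂ)
      rw [smul_eq_mul, Rat.cast_mul, fr_spec, fr_spec, vec_smul, map_smul,
        LinearMap.smul_apply, smul_eq_mul])
    (fun D E E' => by
      apply Rat.cast_injective (α := ℂ)
      rw [Rat.cast_add, fr_spec, fr_spec, fr_spec, vec_add, map_add])
    (fun q D E => by
      apply Rat.cast_injective (α := ℂ)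
      rw [smul_eq_mul, Rat.cast_mul, fr_spec, fr_spec, vec_smul, map_smul, smul_eq_mul])

lemma form_spec (hX : HyperKahler H n X V) (D E : C.gr X 1) :
    hX.q (vec hX D) (vec hX E) = ((form hX D E : ℚ) : ℂ) := (fr_spec hX D E).symm

/-- An ample divisor. -/
lemma exists_ample (hX : HyperKahler H n X V) : ∃ L : C.gr X 1, vec hX L = hX.l := by
  obtain ⟨L, hL, hcl⟩ := hX.lefschetz hX.l hX.toCoh.ns_l
  refine ⟨⟨L, hL⟩, ?_⟩
  apply hX.i_inj
  rw [i_vec]
  exact hcl

lemma form_nondeg (hd : DivHyp hX) (D : C.gr X 1) (h : ∀ E, form hX D E = 0) : D = 0 := by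
  obtain ⟨L, hL⟩ := exists_ample hX
  have hns := ns_of_div hd D.2 (i_vec hX D)
  have h1 : vec hX D = 0 := by
    refine hX.index _ hns.1 hns.2.1 hns.2.2 ?_ ?_
    · rw [hX.q_symm, ← hL, form_spec, h, Rat.cast_zero]
    · rw [form_spec, h, Rat.cast_zero]
  have h2 := i_vec hX D
  rw [h1, map_zero] at h2
  exact Subtype.ext (hd.pic _ D.2 h2.symm)

lemma finite_div (hd : DivHyp hX) : Module.Finite ℚ (C.gr X 1) := by
  have hc : ∀ (z : C.A X) (j : Fin hX.m), ∃ r : ℚ, hX.b.repr (H.cl z) j = (r : ℂ) :=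
    fun z j => hX.cl_rat z j
  choose f hf using hc
  let F : C.A X →ₗ[ℚ] (Fin hX.m → ℚ) :=
    { toFun := f
      map_add' := fun a b => by
        funext j
        have h1 : ((f (a + b) j : ℚ) : ℂ) = ((f a j + f b j : ℚ) : ℂ) := by
          rw [← hf, map_add, map_add, Finsupp.add_apply, hf, hf]
          push_cast
          rfl
        exact_mod_cast h1
      map_smul' := fun q a => by
        funext j
        have h1 : ((f (q • a) j : ℚ) : ℂ) = ((q * f a j : ℚ) : ℂ) := by
          rw [← hf, cl_smul, map_smul, Finsupp.smul_apply, hf, smul_eq_mul]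
          push_cast
          rfl
        exact_mod_cast h1 }
  have hinj : Function.Injective (F ∘ₗ (C.gr X 1).subtype) := by
    rw [← LinearMap.ker_eq_bot, LinearMap.ker_eq_bot']
    intro x hx
    have h1 : H.cl (x : C.A X) = 0 := by
      rw [← hX.b.repr.map_eq_zero_iff]
      refine Finsupp.ext fun j => ?_
      rw [hf, Finsupp.zero_apply]
      have h2 : f (x : C.A X) j = 0 := congrFun hx j
      rw [h2, Rat.cast_zero]
    exact Subtype.ext (hd.pic _ x.2 h1)
  exact Module.Finite.of_injective (F ∘ₗ (C.gr X 1).subtype) hinj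

lemma ch_pow_cl (x : C.A X) (m : ℕ) : H.cl (x ^ m) = H.cl x ^ m := map_pow _ _ _

/-- The Fujiki relation for the degrees of zero-cycles. -/
lemma exists_fujiki (hX : HyperKahler H n X V) : ∃ c : ℚ, c ≠ 0 ∧ ∀ D : C.gr X 1,
    degL H X ((D : C.A X) ^ (2 * n)) = c * form hX D D ^ n := by
  obtain ⟨L, hL⟩ := exists_ample hX
  have htr : ∀ D : C.gr X 1, H.tr X (H.cl ((D : C.A X) ^ (2 * n))) =
      (hX.c : ℂ) * ((form hX D D : ℚ) : ℂ) ^ n := by
    intro D
    rw [ch_pow_cl, ← i_vec hX, ← hX.int_eq, hX.fujiki, form_spec]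
  have hLL : form hX L L ≠ 0 := by
    intro h0
    apply hX.l_l
    rw [← hL, form_spec, h0, Rat.cast_zero]
  have hc : (hX.c : ℂ) ≠ 0 := by exact_mod_cast hX.c_ne
  have hLn : (form hX L L) ^ n ≠ 0 := pow_ne_zero _ hLL
  -- the degree of `L^(2n)` is not zero
  obtain ⟨p, -, hp, -⟩ := hC.exists_deg_one X
  set r := degL H X ((L : C.A X) ^ (2 * n)) with hr
  have hr0 : r ≠ 0 := by
    intro h0
    obtain ⟨a, ha, h1, h2⟩ := hC.exists_deg_one X
    have hdeg : degL H X a = 1 := by
      apply degL_eq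
      intro Z
      rw [one_smul]
      exact ⟨h2 Z, h1 Z⟩
    have h3 := degL_tr (H := H) a ((L : C.A X) ^ (2 * n))
    rw [hdeg, ← hr, h0, Rat.cast_one, one_mul, Rat.cast_zero, zero_mul, htr] at h3
    rcases mul_eq_zero.1 h3 with h4 | h4
    · exact hc h4
    · exact hLn (by exact_mod_cast h4)
  refine ⟨r / form hX L L ^ n, div_ne_zero hr0 hLn, fun D => ?_⟩
  have h1 := degL_tr (H := H) ((D : C.A X) ^ (2 * n)) ((L : C.A X) ^ (2 * n))
  rw [htr, htr, ← hr] at h1
  have h2 : degL H X ((D : C.A X) ^ (2 * n)) * form hX L L ^ n = r * form hX D D ^ n := by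
    have h3 : (((degL H X ((D : C.A X) ^ (2 * n)) * form hX L L ^ n : ℚ)) : ℂ) =
        ((r * form hX D D ^ n : ℚ) : ℂ) := by
      push_cast
      apply mul_left_cancel₀ hc
      linear_combination h1
    exact_mod_cast h3
  rw [div_mul_eq_mul_div, eq_div_iff hLn, h2]

lemma form_symm (hX : HyperKahler H n X V) (D E : C.gr X 1) : form hX D E = form hX E D := by
  apply Rat.cast_injective (α := ℂ)
  rw [← form_spec, ← form_spec, hX.q_symm]

omit hC hH in
/-- The space spanned by the classes `h^(2e) D^m`, for divisors `D` and `e + m ≤ n`. -/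
def lefSub (C : TheoryData.{0, 0, 0} 𝒱 ℚ) (n : ℕ) {X : 𝒱.Obj} (h : C.A X) :
    Submodule ℚ (C.A X) :=
  Submodule.span ℚ {y | ∃ (D : C.A X) (e m : ℕ), D ∈ C.gr X 1 ∧ e + m ≤ n ∧
    y = h ^ (2 * e) * D ^ m}

omit hH in
lemma pow_mem_gr {x : C.A X} {i : ℤ} (hx : x ∈ C.gr X i) (m : ℕ) : x ^ m ∈ C.gr X (m * i) := by
  induction m with
  | zero =>
    rw [pow_zero, Nat.cast_zero, zero_mul]
    exact C.one_mem X
  | succ m ih =>
    rw [pow_succ]
    have h := C.mul_mem ih hx
    rwa [show (m * i + i : ℤ) = ((m + 1 : ℕ) : ℤ) * i by push_cast; ring] at h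

omit hH in
lemma lef_gen_mem {h D : C.A X} (hh : h ∈ C.gr X 1) (hD : D ∈ C.gr X 1) (e m : ℕ) :
    h ^ (2 * e) * D ^ m ∈ C.gr X ((2 * e + m : ℕ) : ℤ) := by
  have h1 := C.mul_mem (pow_mem_gr hh (2 * e)) (pow_mem_gr hD m)
  rwa [show (((2 * e : ℕ) : ℤ) * 1 + (m : ℤ) * 1) = ((2 * e + m : ℕ) : ℤ) by push_cast; ring] at h1

/-- **Products of divisors.** The space spanned by the classes `h^(2e) D^m`, `e + m ≤ n`, has no
nonzero numerically trivial elements. -/
theorem lefSub_isFaithful (hd : DivHyp hX) {h : C.A X} (hh : h ∈ C.gr X 1)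
    (hne : degL H X (h ^ (2 * n)) ≠ 0) : IsFaithful C (lefSub C n h) where
  graded := by
    rw [lefSub, Submodule.span_le]
    rintro y ⟨D, e, m, hD, hem, rfl⟩
    refine (le_iSup (fun i => lefSub C n h ⊓ C.gr X i) ((2 * e + m : ℕ) : ℤ)) ⟨?_, ?_⟩
    · exact Submodule.subset_span ⟨D, e, m, hD, hem, rfl⟩
    · exact lef_gen_mem hh hD e m
  faithful x hx hnum := by
    classical
    obtain ⟨N, q, g, rfl⟩ := (Submodule.mem_span_set' (R := ℚ)).1 hx
    choose D e m hD hem hg using fun j => (g j).2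
    apply eq_zero_of_cmp (H := H)
    intro k
    have hk0 := numTrivial_cmp (H := H) hnum k
    have hp : ∀ j, ((g j : C.A X)) = h ^ (2 * e j) * D j ^ m j := fun j => hg j
    have h1 : cmp (C.isInternal X) k (∑ j, q j • ((g j : C.A X))) =
        ∑ j : {j // ((2 * e j + m j : ℕ) : ℤ) = k}, q j • (h ^ (2 * e j) * D j ^ m j) := by
      rw [map_sum, ← Finset.sum_subtype (Finset.univ.filter fun j => ((2 * e j + m j : ℕ) : ℤ) = k)
        (fun j => by simp) (fun j => q j • (h ^ (2 * e j) * D j ^ m j)), Finset.sum_filter]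
      refine Finset.sum_congr rfl fun j _ => ?_
      rw [map_smul, hp]
      split_ifs with hj
      · rw [cmp_of_mem _ (by rw [← hj]; exact lef_gen_mem hh (hD j) _ _)]
      · rw [cmp_of_ne _ (lef_gen_mem hh (hD j) (e j) (m j)) hj, smul_zero]
    rw [h1] at hk0 ⊢
    by_cases hk : ∃ k' : ℕ, (k' : ℤ) = k
    · obtain ⟨k', rfl⟩ := hk
      obtain ⟨c, hc, hfuj⟩ := exists_fujiki hX
      have := finite_div hd
      have hhh : form hX ⟨h, hh⟩ ⟨h, hh⟩ ≠ 0 := by
        intro h0
        apply hne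
        have h2 := hfuj ⟨h, hh⟩
        simp only at h2
        rw [h2, h0, zero_pow hX.n_pos.ne', mul_zero]
      refine Lef.abs (fun a b => ch_comm C a b) (C.gr X 1).subtype (degL H X) hc (form hX)
        (form_symm hX) (fun x hx => form_nondeg hd x hx) hfuj ⟨h, hh⟩ hhh (k := k')
        (fun j : {j // ((2 * e j + m j : ℕ) : ℤ) = k'} => q j) (fun j => ⟨D j, hD j⟩)
        (fun j => e j) (fun j => m j) (fun j => hem j) (fun j => by exact_mod_cast j.2) ?_
      exact (numTrivial_iff (H := H)).1 hk0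
    · apply Finset.sum_eq_zero
      rintro ⟨j, hj⟩ -
      exact absurd ⟨_, hj⟩ hk

end HK

end Run7.h158
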