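import Pool.Agent.Run7.h158.Lef.Psd

/-!
# A positive definite pairing on the polynomials of degree `n`
-/

namespace Run7.h158.Lef

open Finset MvPolynomial

variable {κ : Type} [Fintype κ]

/-- The linear form `∑ x_a X_a`. -/
noncomputable def lin (x : κ → ℚ) : MvPolynomial κ ℚ := ∑ a, x a • X a

lemma lin_add (x y : κ → ℚ) : lin (x + y) = lin x + lin y := by
  rw [lin, lin, lin, ← sum_add_distrib]
  exact sum_congr rfl fun a _ => by rw [Pi.add_apply, add_smul]

lemma lin_smul (t : ℚ) (x : κ → ℚ) : lin (t • x) = t • lin x := by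
  rw [lin, lin, smul_sum]
  exact sum_congr rfl fun a _ => by rw [Pi.smul_apply, smul_eq_mul, mul_smul]

/-- Polarization of `Λ (lin x ^ 2n) = c q(x, x)^n`. -/
theorem polar {n : ℕ} {c : ℚ} {lam : κ → ℚ} {L : MvPolynomial κ ℚ →ₗ[ℚ] ℚ}
    (hL : ∀ x : κ → ℚ, L (lin x ^ (2 * n)) = c * (∑ a, lam a * x a ^ 2) ^ n) (x y : κ → ℚ) :
    ((2 * n).choose n : ℚ) * L (lin x ^ n * lin y ^ n) =
      c * ∑ a ∈ range (n + 1), (n.choose a : ℚ) * ((n - a).choose a : ℚ) * 2 ^ (n - 2 * a) *
        (((∑ a, lam a * x a ^ 2) * ∑ a, lam a * y a ^ 2) ^ a *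
          (∑ a, lam a * x a * y a) ^ (n - 2 * a)) := by
  set u := ∑ a, lam a * x a ^ 2 with hu
  set v := ∑ a, lam a * y a ^ 2 with hv
  set b := ∑ a, lam a * x a * y a with hb
  let P : Polynomial ℚ := ∑ k ∈ range (2 * n + 1),
    Polynomial.C (((2 * n).choose k : ℚ) * L (lin x ^ k * lin y ^ (2 * n - k))) * Polynomial.X ^ k
  let Q : Polynomial ℚ := Polynomial.C c * (Polynomial.C u * Polynomial.X ^ 2 +
    Polynomial.C (2 * b) * Polynomial.X + Polynomial.C v) ^ n
  have hPQ : P = Q := by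
    apply Polynomial.funext
    intro t
    have h1 : Q.eval t = c * (∑ a, lam a * (t • x + y) a ^ 2) ^ n := by
      simp only [Q, Polynomial.eval_mul, Polynomial.eval_C, Polynomial.eval_pow,
        Polynomial.eval_add, Polynomial.eval_X]
      congr 2
      have h2 : ∀ a, lam a * (t • x + y) a ^ 2 =
          t ^ 2 * (lam a * x a ^ 2) + 2 * t * (lam a * x a * y a) + lam a * y a ^ 2 := by
        intro a
        rw [Pi.add_apply, Pi.smul_apply, smul_eq_mul]
        ring
      simp only [h2]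
      rw [sum_add_distrib, sum_add_distrib, ← mul_sum, ← mul_sum]
      ring
    have h3 : P.eval t = L (lin (t • x + y) ^ (2 * n)) := by
      rw [lin_add, lin_smul, add_pow, map_sum]
      simp only [P, Polynomial.eval_finsetSum]
      refine sum_congr rfl fun k _ => ?_
      rw [Polynomial.eval_mul, Polynomial.eval_C, Polynomial.eval_pow, Polynomial.eval_X]
      have h4 : (t • lin x) ^ k * lin y ^ (2 * n - k) * ((2 * n).choose k : MvPolynomial κ ℚ) =
          (t ^ k * ((2 * n).choose k : ℚ)) • (lin x ^ k * lin y ^ (2 * n - k)) := by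
        rw [smul_pow, smul_mul_assoc, smul_mul_assoc, mul_smul, mul_comm _ (Nat.cast _),
          ← nsmul_eq_mul, Nat.cast_smul_eq_nsmul]
      rw [h4, map_smul, smul_eq_mul]
      ring
    rw [h3, h1, hL]
  have h5 := congrArg (fun R => Polynomial.coeff R n) hPQ
  simp only [P, Q] at h5
  rw [Polynomial.coeff_C_mul, coeff_mid, Polynomial.finsetSum_coeff] at h5
  rw [← h5, sum_eq_single n]
  · rw [Polynomial.coeff_C_mul, Polynomial.coeff_X_pow, if_pos rfl, mul_one]
    have h6 : 2 * n - n = n := by omega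
    rw [h6]
  · intro k _ hk
    rw [Polynomial.coeff_C_mul, Polynomial.coeff_X_pow, if_neg hk.symm, mul_zero]
  · intro h
    exact absurd (mem_range.2 (by omega)) h

/-- The sign of a rational number. -/
def sg (r : ℚ) : ℚ := if 0 < r then 1 else -1

lemma sg_sq (r : ℚ) : sg r * sg r = 1 := by
  unfold sg; split_ifs <;> norm_num

lemma mul_sg_pos {r : ℚ} (hr : r ≠ 0) : 0 < r * sg r := by
  unfold sg
  split_ifs with h
  · rwa [mul_one]
  · have : r < 0 := lt_of_le_of_ne (not_lt.1 h) hr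
    linarith

/-- The reflection `X_a ↦ ± X_a`. -/
noncomputable def refl (lam : κ → ℚ) : MvPolynomial κ ℚ →ₐ[ℚ] MvPolynomial κ ℚ :=
  aeval fun a => sg (lam a) • X a

lemma refl_lin (lam x : κ → ℚ) : refl lam (lin x) = lin fun a => sg (lam a) * x a := by
  rw [lin, lin, map_sum]
  refine sum_congr rfl fun a _ => ?_
  rw [map_smul, refl, aeval_X, smul_smul, mul_comm]

/-- The pairing `(F, G) ↦ Λ (F · refl G)` on the sums of `n`-th powers of linear forms is definite. -/
theorem definite {n : ℕ} {c : ℚ} (hc : c ≠ 0) {lam : κ → ℚ} (hlam : ∀ a, lam a ≠ 0)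
    {L : MvPolynomial κ ℚ →ₗ[ℚ] ℚ}
    (hL : ∀ x : κ → ℚ, L (lin x ^ (2 * n)) = c * (∑ a, lam a * x a ^ 2) ^ n)
    {F : MvPolynomial κ ℚ} (hF : F ∈ Submodule.span ℚ (Set.range fun x : κ → ℚ => lin x ^ n))
    (h0 : L (F * refl lam F) = 0) : F = 0 := by
  obtain ⟨m, d, g, rfl⟩ := (Submodule.mem_span_set' (R := ℚ)).1 hF
  choose x hx using fun i => (g i).2
  simp only at hx
  simp only [← hx] at h0 ⊢
  -- the coordinates of the reflected vectors
  set s : Fin m → κ → ℚ := fun i a => sg (lam a) * x i a with hs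
  have hq : ∀ i, ∑ a, lam a * s i a ^ 2 = ∑ a, lam a * x i a ^ 2 := by
    intro i
    refine sum_congr rfl fun a _ => ?_
    rw [hs]
    have := sg_sq (lam a)
    calc lam a * (sg (lam a) * x i a) ^ 2 = lam a * (sg (lam a) * sg (lam a)) * x i a ^ 2 := by ring
      _ = lam a * x i a ^ 2 := by rw [this]; ring
  have hb : ∀ i j, ∑ a, lam a * x i a * s j a = ∑ a, (lam a * sg (lam a)) * x i a * x j a := by
    intro i j
    refine sum_congr rfl fun a _ => ?_
    rw [hs]
    ring
  have h1 : (∑ i, d i • lin (x i) ^ n) * refl lam (∑ i, d i • lin (x i) ^ n) =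
      ∑ i, ∑ j, (d i * d j) • (lin (x i) ^ n * lin (s j) ^ n) := by
    rw [map_sum, sum_mul_sum]
    refine sum_congr rfl fun i _ => sum_congr rfl fun j _ => ?_
    rw [map_smul, map_pow, refl_lin, smul_mul_smul_comm]
  rw [h1, map_sum] at h0
  simp only [map_sum, map_smul, smul_eq_mul] at h0
  have hbin : ((2 * n).choose n : ℚ) ≠ 0 := by
    exact_mod_cast (Nat.choose_pos (by omega)).ne'
  obtain ⟨u, hu⟩ : ∃ u : Fin m → ℚ, ∀ i, ∑ a, lam a * x i a ^ 2 = u i := ⟨_, fun _ => rfl⟩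
  obtain ⟨B, hB⟩ : ∃ B : Fin m → Fin m → ℚ,
    ∀ i j, ∑ a, (lam a * sg (lam a)) * x i a * x j a = B i j := ⟨_, fun _ _ => rfl⟩
  obtain ⟨K, hK⟩ : ∃ K : ℕ → ℚ, ∀ a, (n.choose a : ℚ) * ((n - a).choose a : ℚ) *
    2 ^ (n - 2 * a) = K a := ⟨_, fun _ => rfl⟩
  have h2 : ∑ i, ∑ j, d i * d j * (∑ a ∈ range (n + 1), K a *
        ((u i * u j) ^ a * B i j ^ (n - 2 * a))) = 0 := by
    have h3 : c * ∑ i, ∑ j, d i * d j * (∑ a ∈ range (n + 1), K a *
        ((u i * u j) ^ a * B i j ^ (n - 2 * a))) =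
        ((2 * n).choose n : ℚ) * ∑ i, ∑ j, d i * d j * L (lin (x i) ^ n * lin (s j) ^ n) := by
      rw [mul_sum, mul_sum]
      refine sum_congr rfl fun i _ => ?_
      rw [mul_sum, mul_sum]
      refine sum_congr rfl fun j _ => ?_
      have h4 := polar hL (x i) (s j)
      rw [hq, hb, hu, hu, hB] at h4
      simp only [hK] at h4
      linear_combination (-(d i * d j)) * h4
    rw [h0, mul_zero] at h3
    exact (mul_eq_zero.1 h3).resolve_left hc
  have h5 : ∑ a ∈ range (n + 1), K a *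
      ∑ i, ∑ j, (d i * u i ^ a) * (d j * u j ^ a) * B i j ^ (n - 2 * a) = 0 := by
    rw [← h2]
    simp only [mul_sum]
    rw [sum_comm]
    refine sum_congr rfl fun i _ => ?_
    rw [sum_comm]
    refine sum_congr rfl fun j _ => sum_congr rfl fun a _ => ?_
    rw [mul_pow]
    ring
  have hpos : ∀ a, 0 < lam a * sg (lam a) := fun a => mul_sg_pos (hlam a)
  have hKnn : ∀ a, 0 ≤ K a := fun a => by
    rw [← hK]
    positivity
  have hpsd := psd (fun a => lam a * sg (lam a)) hpos x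
  simp only [hB] at hpsd
  have h6 := (sum_eq_zero_iff_of_nonneg (fun a _ => mul_nonneg (hKnn a)
    (hpsd (n - 2 * a) (fun i => d i * u i ^ a)).1)).1 h5 0 (mem_range.2 (by omega))
  rw [← hK] at h6
  simp only [pow_zero, mul_one, mul_zero, Nat.sub_zero, Nat.choose_zero_right, Nat.cast_one,
    one_mul] at h6
  have h7 := (mul_eq_zero.1 h6).resolve_left (pow_ne_zero _ two_ne_zero)
  exact (hpsd n d).2 h7 (MvPolynomial κ ℚ) X

end Run7.h158.Lef
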