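import Mathlib

/-!
# Positive kernels and powers of linear forms
-/

namespace Run7.h158.Lef

open Finset

/-- The kernel `B(i, j)^m`, for a positive definite diagonal form `B`, is positive semi-definite,
and the isotropic vectors give relations between the `m`-th powers of linear forms. -/
theorem psd {ι κ : Type} [Fintype ι] [Fintype κ] (β : κ → ℚ) (hβ : ∀ a, 0 < β a)
    (x : ι → κ → ℚ) (m : ℕ) : ∀ c : ι → ℚ,
    0 ≤ ∑ i, ∑ j, c i * c j * (∑ a, β a * x i a * x j a) ^ m ∧
    (∑ i, ∑ j, c i * c j * (∑ a, β a * x i a * x j a) ^ m = 0 →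
      ∀ (K : Type) [CommRing K] [Algebra ℚ K] (w : κ → K),
        ∑ i, c i • (∑ a, x i a • w a) ^ m = 0) := by
  induction m with
  | zero =>
    intro c
    have h1 : ∑ i, ∑ j, c i * c j * (∑ a, β a * x i a * x j a) ^ 0 = (∑ i, c i) * ∑ i, c i := by
      simp only [pow_zero, mul_one]
      rw [sum_mul_sum]
    rw [h1]
    refine ⟨mul_self_nonneg _, fun h K _ _ w => ?_⟩
    have h2 : ∑ i, c i = 0 := mul_self_eq_zero.1 h
    simp only [pow_zero]
    rw [← sum_smul, h2, zero_smul]
  | succ m ih =>
    intro c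
    have key : ∑ i, ∑ j, c i * c j * (∑ a, β a * x i a * x j a) ^ (m + 1) =
        ∑ a, β a * ∑ i, ∑ j, (c i * x i a) * (c j * x j a) *
          (∑ a, β a * x i a * x j a) ^ m := by
      have h1 : ∀ i j, c i * c j * (∑ a, β a * x i a * x j a) ^ (m + 1) =
          ∑ a, β a * ((c i * x i a) * (c j * x j a) * (∑ a, β a * x i a * x j a) ^ m) := by
        intro i j
        rw [pow_succ', ← mul_assoc, mul_sum, sum_mul]
        refine sum_congr rfl fun a _ => ?_
        ring
      simp only [h1]
      simp only [mul_sum]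
      rw [sum_congr rfl fun i _ => sum_comm, sum_comm]
    rw [key]
    refine ⟨sum_nonneg fun a _ => mul_nonneg (hβ a).le (ih _).1, fun h K _ _ w => ?_⟩
    have h2 : ∀ a, ∑ i, ∑ j, (c i * x i a) * (c j * x j a) *
        (∑ a, β a * x i a * x j a) ^ m = 0 := by
      intro a
      have h3 := (sum_eq_zero_iff_of_nonneg
        (fun a _ => mul_nonneg (hβ a).le (ih (fun i => c i * x i a)).1)).1 h a (mem_univ a)
      exact (mul_eq_zero.1 h3).resolve_left (hβ a).ne'
    have h4 : ∀ a, ∑ i, (c i * x i a) • (∑ a, x i a • w a) ^ m = 0 := fun a =>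
      (ih (fun i => c i * x i a)).2 (h2 a) K w
    have h5 : ∑ i, c i • (∑ a, x i a • w a) ^ (m + 1) =
        ∑ a, w a * ∑ i, (c i * x i a) • (∑ a, x i a • w a) ^ m := by
      simp only [mul_sum]
      rw [sum_comm]
      refine sum_congr rfl fun i _ => ?_
      rw [pow_succ', sum_mul, smul_sum]
      refine sum_congr rfl fun a _ => ?_
      rw [smul_mul_assoc, smul_smul, mul_smul_comm]
    rw [h5]
    refine sum_eq_zero fun a _ => ?_
    rw [h4 a, mul_zero]

/-- The middle coefficient of `(u X² + 2 b X + v)^n`. -/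
theorem coeff_mid (u b v : ℚ) (n : ℕ) :
    ((Polynomial.C u * Polynomial.X ^ 2 + Polynomial.C (2 * b) * Polynomial.X +
      Polynomial.C v) ^ n).coeff n =
      ∑ a ∈ range (n + 1), (n.choose a : ℚ) * ((n - a).choose a : ℚ) * 2 ^ (n - 2 * a) *
        ((u * v) ^ a * b ^ (n - 2 * a)) := by
  have h1 : Polynomial.C u * Polynomial.X ^ 2 + Polynomial.C (2 * b) * Polynomial.X +
      Polynomial.C v = Polynomial.C v +
        (Polynomial.C u * Polynomial.X + Polynomial.C (2 * b)) * Polynomial.X := by ring
  rw [h1, add_pow, Polynomial.finsetSum_coeff]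
  refine sum_congr rfl fun a ha => ?_
  have ha' : a ≤ n := Nat.lt_succ_iff.1 (mem_range.1 ha)
  rw [mul_pow, ← mul_assoc, ← Polynomial.C_pow]
  have h2 : Polynomial.C (v ^ a) * (Polynomial.C u * Polynomial.X + Polynomial.C (2 * b)) ^ (n - a) *
      Polynomial.X ^ (n - a) * (n.choose a : Polynomial ℚ) =
      Polynomial.C ((n.choose a : ℚ) * v ^ a) *
        (Polynomial.C u * Polynomial.X + Polynomial.C (2 * b)) ^ (n - a) *
          Polynomial.X ^ (n - a) := by
    have h0 : Polynomial.C ((n.choose a : ℚ) * v ^ a) =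
        (n.choose a : Polynomial ℚ) * Polynomial.C (v ^ a) := by
      rw [Polynomial.C_mul, Polynomial.C_eq_natCast]
    rw [h0]
    ring
  rw [h2]
  have h3 : ∀ P : Polynomial ℚ, (P * Polynomial.X ^ (n - a)).coeff n = P.coeff a := by
    intro P
    have h := Polynomial.coeff_mul_X_pow P (n - a) a
    rwa [show a + (n - a) = n by omega] at h
  rw [h3, Polynomial.coeff_C_mul]
  have h4 : ((Polynomial.C u * Polynomial.X + Polynomial.C (2 * b)) ^ (n - a)).coeff a =
      u ^ a * (2 * b) ^ (n - a - a) * ((n - a).choose a : ℚ) := by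
    rw [add_pow, Polynomial.finsetSum_coeff]
    have h5 : ∀ k, ((Polynomial.C u * Polynomial.X) ^ k * Polynomial.C (2 * b) ^ (n - a - k) *
        ((n - a).choose k : Polynomial ℚ)).coeff a =
        if a = k then u ^ k * (2 * b) ^ (n - a - k) * ((n - a).choose k : ℚ) else 0 := by
      intro k
      have h6 : (Polynomial.C u * Polynomial.X) ^ k * Polynomial.C (2 * b) ^ (n - a - k) *
        ((n - a).choose k : Polynomial ℚ) =
        Polynomial.C (u ^ k * (2 * b) ^ (n - a - k) * ((n - a).choose k : ℚ)) *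
          Polynomial.X ^ k := by
        have h0 : Polynomial.C (u ^ k * (2 * b) ^ (n - a - k) * ((n - a).choose k : ℚ)) =
            Polynomial.C u ^ k * Polynomial.C (2 * b) ^ (n - a - k) *
              ((n - a).choose k : Polynomial ℚ) := by
          rw [← Polynomial.C_pow, ← Polynomial.C_pow, ← Polynomial.C_eq_natCast,
            ← Polynomial.C_mul, ← Polynomial.C_mul]
        rw [h0]
        ring
      rw [h6, Polynomial.coeff_C_mul, Polynomial.coeff_X_pow]
      split_ifs <;> simp
    simp only [h5]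
    rw [sum_ite_eq]
    split_ifs with h7
    · rfl
    · rw [mem_range, not_lt] at h7
      rw [Nat.choose_eq_zero_of_lt (by omega)]
      simp
  rw [h4]
  by_cases h8 : 2 * a ≤ n
  · have h9 : n - a - a = n - 2 * a := by omega
    rw [h9, mul_pow 2 b, mul_pow u v]
    ring
  · rw [Nat.choose_eq_zero_of_lt (show n - a < a by omega)]
    simp

end Run7.h158.Lef
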